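import Pool.Agent.Helper45.LS.Main
import Pool.Agent.Helper70K1.SS.Fin

/-!
# Languages that are selective from lists and counting
-/

set_option autoImplicit false

namespace Pool.Agent.Helper70K1.LS

open Pool.Agent.NPC
open Pool.Agent.Helper70K1.SP hiding PN prs
open Pool.Agent.Helper70K1.PP (PN PE PN_eval PE_eval PE_pos mm_le_PE rrP rrP_spec sz_queryP findF
  findF_spec poly_findF RB cc)
open Pool.Agent.Helper70K1.SS
open Pool.Agent.H623R2.PS (poly_replicate)
open Pool.Agent.NPC.Cnt (SharpP FP CNF satCount vars SatBy parsimonious CountP strFn strFn_bits)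
open Pool.Agent.Helper45.LS (ListSelective Lone QryS bitS rhoS poly_rhoS keyN PKS PMS nnS nnS_pos
  le_nnS param_okS cdS length_cdS_le cdS_spec mem_listS poly_listS selective_of_inP)

/-- The language of the statements that the number of the hash values is not `i`. -/
def LQ : Set (List Bool) :=
  {x | (unbits QryS x).elim false (fun Q => rhoS Q (vI Q.1 (gL Q.1))) = true}

theorem mem_LQ {I : Ins} (h : ∀ o ∈ I.os, o.2 < I.r.length) (hV : vI I (gI I) < 2 ^ (I.m * I.m))
    (j q : ℕ) (f : List Bool) (t i : ℕ) :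
    bits ((I, j, q, f, t, i) : QryS) ∈ LQ ↔ bitS f t (vI I (gI I) % 2 ^ j % q) i = true := by
  change (unbits QryS (bits ((I, j, q, f, t, i) : QryS))).elim false
    (fun Q => rhoS Q (vI Q.1 (gL Q.1))) = true ↔ _
  rw [unbits_bits]
  simp only [Option.elim]
  rw [gL_eq h]
  unfold rhoS
  simp only
  rcases le_total j (I.m * I.m) with h2 | h2
  · rw [min_eq_left h2]
  · rw [min_eq_right h2, Nat.mod_eq_of_lt hV, Nat.mod_eq_of_lt (lt_of_lt_of_le hV
      (Nat.pow_le_pow_right (by norm_num) h2))]

/-- The language is decided with one value of a function in `#P`. -/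
theorem inPSharpP_LQ : InPSharpP LQ := by
  refine ⟨strFn (fun Q : QryS => gL Q.1), fun y =>
    [(unbits QryS (unpair y).1).elim false (fun Q => rhoS Q (vI Q.1 (valB (unpair y).2)))],
    @CountP.sharpP _ _ cntDec _ countP_gL, polyTime_of_poly ?_, fun x => ?_⟩
  · refine NPC.Poly.optElim (o := fun y : List Bool => unbits QryS (unpair y).1)
      (g := fun _ => false) (h := fun y (Q : QryS) => rhoS Q (vI Q.1 (valB (unpair y).2)))
      (poly_unbits.comp (NPC.Poly.fst poly_unpair)) (NPC.Poly.const _) ?_
    have h1 : NPC.Poly (fun x : List Bool × QryS => valB (unpair x.1).2) :=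
      NPC.Poly.valBits ((NPC.Poly.snd poly_unpair).comp (NPC.Poly.fst NPC.Poly.id))
    have h2 : NPC.Poly (fun x : List Bool × QryS => vI x.2.1 (valB (unpair x.1).2)) :=
      poly_vI (by fun_prop) h1
    exact poly_rhoS.comp (f := fun x : List Bool × QryS => (x.2, vI x.2.1 (valB (unpair x.1).2)))
      (NPC.Poly.pair (by fun_prop) h2)
  · simp only [unpair_pairBits, List.cons.injEq, and_true]
    change (unbits QryS x).elim false (fun Q => rhoS Q (vI Q.1 (gL Q.1))) = true ↔ _
    cases hx : unbits QryS x with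
    | none => simp
    | some Q =>
      simp only [Option.elim]
      have h1 : bits Q = x := bits_of_unbits hx
      rw [← h1, strFn_bits]
      have h2 : valB (gL Q.1).bits = gL Q.1 := valB_bits _
      rw [h2]

/-- The recursive evaluation is correct, if the language is selective from lists. -/
theorem runQ_correct {P : Polynomial ℕ} {gg : List Bool → ℕ}
    (hpred : ∀ (n : ℕ) (xs : List (List Bool)), (∀ x ∈ xs, x.length ≤ n) → P.eval n ≤ xs.length →
      gg (bits xs) < xs.length ∧ ¬ Lone LQ xs (gg (bits xs)))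
    {m p n D : ℕ} {F : List (List (Bool × ℕ))} {os0 : List Op} [hprime : Fact (p + 1).Prime]
    (hM : (PMS P).eval m ≤ p + 1) (hD : p < D) (hpm : p < 2 ^ m)
    (h2M : 2 * (PE P).eval m ^ 2 < 2 ^ m) (hF : sz F ≤ m) (hos0 : sz os0 ≤ m) (hn : n < m)
    (hidx : ∀ o ∈ os0, o.2 < n) (hdeg : (F.map List.length).sum < m) :
    ((runG p D (fun r => leafN p F r) (fun _ _ u w => (u + w) % (p + 1))
      (fun os r i => cdS gg P (List.replicate m (), p, F, os, r, i)) os0 (List.replicate n 0) : ℕ) :
        ZMod (p + 1)) = vS (leafC F) os0 (fun _ => 0) := by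
  have hPM : (PMS P).eval m = (PKS P).eval m * (PKS P).eval m * m + m + 2 := by
    simp [PMS]
  have hrc := runG_correct (p := p) (D := D) (m := m) (n := n)
    (K := (PKS P).eval m) (lv := fun r => leafN p F r)
    (cm := fun _ _ u w => (u + w) % (p + 1))
    (cd := fun os r i => cdS gg P (List.replicate m (), p, F, os, r, i))
    (vf := vS (leafC F)) (os0 := os0) (by omega) (by omega)
    (by omega) hidx (fun r _ _ => cast_leafN p F r) ?_ ?_
    os0 (List.replicate n 0) List.suffix_rfl (by simp) (by
      intro a ha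
      rw [List.eq_of_mem_replicate ha]
      exact Nat.zero_le _)
  · rw [hrc]
    congr 1
    funext i
    unfold pt
    by_cases hi : i < n
    · rw [List.getD_eq_getElem _ _ (by simpa using hi)]
      simp
    · rw [List.getD_eq_getElem?_getD, List.getElem?_eq_none (by simpa using hi)]
      simp
  · -- the combinations
    rintro ⟨o, i⟩ os r u w hrl hra hi hu hw
    rw [cast_mod, Nat.cast_add, hu, hw]
    rfl
  · -- the candidates
    intro os r i hos hne hrl hra hi
    set I : Ins := (List.replicate m (), p, F, os, r, i) with hI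
    have hIm : I.m = m := by
      change (List.replicate m ()).length = m
      simp
    have hIp : I.p = p := rfl
    have hidx' : ∀ o ∈ I.os, o.2 < I.r.length := fun o ho => by
      change o.2 < r.length
      rw [hrl]
      exact hidx o (hos.subset ho)
    have hprime' : Fact (I.p + 1).Prime := hprime
    have hV : GoodS I (vI I (gI I)) := good_vI (by rw [hIm]; exact hpm) (by
      change i < r.length
      omega) (fun a ha => hra a ha) (by rw [hIm]; exact hdeg)
    set V := vI I (gI I) with hVdef
    refine ⟨?_, ?_, cf I.m V, ?_, hV.2.2⟩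
    · have h1 := length_cdS_le gg P I
      rw [hIm] at h1
      exact h1
    · intro cs hcs
      have h1 := cdS_spec gg P I cs hcs
      rw [hIm, hIp] at h1
      exact h1
    · unfold cdS
      rw [List.mem_filter, List.mem_map, List.all_eq_true]
      refine ⟨⟨V, ?_, rfl⟩, fun a ha => by simpa using hV.2.1 a ha⟩
      set M := (PE P).eval I.m with hM'
      have hM0 : 0 < M := PE_pos _ _
      obtain ⟨hr0, hr1', hr2'⟩ := rrP_spec hM0
      obtain ⟨hfl, hz⟩ := findF_spec hr0
      set fl := findF (rrP M) with hfl'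
      have hMm : 2 * M ^ 2 < 2 ^ m := by
        rw [hM', hIm]
        exact h2M
      have hrm : rrP M ≤ m := Nat.size_le.2 hMm
      have h1 := mem_listS (g := gg) (qb := fun j q t i => bits ((I, j, q, fl, t, i) : QryS))
        (M := M) (N := nnS M) (r := rrP M) (f := fl) (V := V) (μ := I.m * I.m)
        hr0 hfl hz (param_okS hM0 (mm_le_PE P I.m)) ?_ (le_nnS _) (nnS_pos _) ?_
        (I.m * I.m) le_rfl
      · rwa [Nat.mod_eq_of_lt hV.1] at h1
      · have h2 : M ≤ M ^ 2 := Nat.le_self_pow (by norm_num) _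
        have h3 : 2 ^ rrP M ≤ 4 ^ rrP M := Nat.pow_le_pow_left (by norm_num) _
        omega
      · intro j hj q hq t ht
        have hlen : ((List.range M).map fun i' => bits ((I, j, q, fl, t, i') : QryS)).length = M := by
          simp
        obtain ⟨h2, h3⟩ := hpred (PN.eval m)
          ((List.range M).map fun i' => bits ((I, j, q, fl, t, i') : QryS)) (by
            intro y hy
            obtain ⟨i', hi', rfl⟩ := List.mem_map.1 hy
            rw [List.mem_range] at hi'
            rw [bits_length, hI]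
            rw [hIm] at hj
            refine sz_queryP hpm (by omega) ((sz_suffix hos).trans (by omega)) (by omega) hra
              (by omega) hj hrm (by omega) hq hfl ht (lt_of_lt_of_le hi' ?_)
            have := Nat.le_self_pow (n := 2) (by norm_num) M
            omega) (by
            rw [hlen, hM', PE_eval, hIm]
            omega)
        rw [hlen] at h2
        refine ⟨h2, fun hcon => h3 ?_⟩
        -- membership of the queries
        have hmem : ∀ i', bits ((I, j, q, fl, t, i') : QryS) ∈ LQ ↔
            keyN (rrP M) fl t (V % 2 ^ j % q) ≠ i' := by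
          intro i'
          rw [mem_LQ hidx' hV.1, ← hVdef]
          unfold bitS
          rw [hfl]
          simp
        have hget : ∀ i' < M, ((List.range M).map fun i' =>
            bits ((I, j, q, fl, t, i') : QryS)).getD i' [] =
              bits ((I, j, q, fl, t, i') : QryS) := by
          intro i' hi'
          rw [List.getD_eq_getElem _ _ (by rw [hlen]; exact hi')]
          simp
        refine ⟨?_, ?_⟩
        · rw [hget _ h2, hmem]
          exact fun h => h hcon
        · intro i' hi' hne
          rw [hlen] at hi'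
          rw [hget _ hi', hmem]
          intro h
          exact hne (h.symm.trans hcon)

/-- The number of primes needed. -/
noncomputable def PAQ (P : Polynomial ℕ) : Polynomial ℕ := PMS P + Polynomial.X + Polynomial.C 3

/-- The bound for the primes. -/
noncomputable def PDQ (P : Polynomial ℕ) : Polynomial ℕ :=
  Polynomial.C 2 * (PAQ P + Polynomial.C 4) ^ 2 + Polynomial.C 1

theorem satCount_of_selective (h : ListSelective LQ) {g : List Bool → CNF ℕ}
    (hg : NPC.Poly g) : NPC.Poly (fun x => satCount (g x)) := by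
  classical
  obtain ⟨P, gg, hgg, hpred⟩ := h
  have hrf : NPC.Poly (fun x => rf (g x)) := poly_rf hg
  have hro : NPC.Poly (fun x => ro (g x)) := poly_ro hg
  have hvl : NPC.Poly (fun x => vl (g x)) := poly_vl hg
  -- the size parameter
  have hbig : NPC.Poly (fun x : List Bool => (rf (g x), (ro (g x), vl (g x)))) := by
    fun_prop
  obtain ⟨r1, hr1⟩ := hbig.sz_le
  obtain ⟨c0, hc0⟩ := poly_lt_two_pow (PDQ P + Polynomial.C 2 * PE P ^ 2)
  set mm : List Bool → ℕ := fun x => r1.eval (4 * x.length + 1) + 10 + c0 with hmm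
  have hmmU : UPoly mm := by
    refine UPoly.add (UPoly.add ?_ (UPoly.const 10)) (UPoly.const c0)
    exact (UPoly.add (UPoly.mul (UPoly.const 4) (UPoly.length NPC.Poly.id))
      (UPoly.const 1)).eval r1
  set WW : List Bool → List Unit := fun x => List.replicate (mm x) () with hWW
  have hWWP : NPC.Poly WW := hmmU
  set rr : List Bool → List ℕ := fun x => List.replicate (vl (g x)).length 0 with hrr
  have hrrP : NPC.Poly rr := poly_replicate (UPoly.length hvl) 0
  set RR : List Bool × ℕ → ℕ := fun z => runG z.2 ((PDQ P).eval (mm z.1))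
    (fun r => leafN z.2 (rf (g z.1)) r) (fun _ _ u w => (u + w) % (z.2 + 1))
    (fun os r i => cdS gg P (WW z.1, z.2, rf (g z.1), os, r, i)) (ro (g z.1)) (rr z.1) with hRR
  have hRRP : NPC.Poly RR := by
    have f1 : NPC.Poly (fun x : (List Bool × ℕ) × List Op × List ℕ × ℕ => x.1.1) := by fun_prop
    have hI : NPC.Poly (fun x : (List Bool × ℕ) × List Op × List ℕ × ℕ =>
        ((WW x.1.1, x.1.2, rf (g x.1.1), x.2.1, x.2.2.1, x.2.2.2) : Ins)) := by
      have h1 := hWWP.comp f1
      have h2 := hrf.comp f1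
      fun_prop
    have hmU := uPoly_m hI
    have hMU := hmU.eval (PE P)
    have hM2U : UPoly (fun x : (List Bool × ℕ) × List Op × List ℕ × ℕ => 2 * ((PE P).eval
        (Ins.m (WW x.1.1, x.1.2, rf (g x.1.1), x.2.1, x.2.2.1, x.2.2.2))) ^ 2) := by
      have := hMU.eval (Polynomial.C 2 * Polynomial.X ^ 2)
      simpa using this
    have hrU : UPoly (fun x : (List Bool × ℕ) × List Op × List ℕ × ℕ => rrP ((PE P).eval
        (Ins.m (WW x.1.1, x.1.2, rf (g x.1.1), x.2.1, x.2.2.1, x.2.2.2)))) := upoly_size hM2U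
    have hRB : RB (fun x : (List Bool × ℕ) × List Op × List ℕ × ℕ => rrP ((PE P).eval
        (Ins.m (WW x.1.1, x.1.2, rf (g x.1.1), x.2.1, x.2.2.1, x.2.2.2)))) := by
      refine ⟨hrU, UPoly.of_le (poly_pow2 hrU) (UPoly.add (UPoly.mul (UPoly.const 2) hM2U)
        (UPoly.const 1)) fun x => ?_⟩
      refine (rrP_spec (PE_pos _ _)).2.2.trans (le_of_eq ?_)
      ring
    have hNU : UPoly (fun x : (List Bool × ℕ) × List Op × List ℕ × ℕ => nnS ((PE P).eval
        (Ins.m (WW x.1.1, x.1.2, rf (g x.1.1), x.2.1, x.2.2.1, x.2.2.2)))) := by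
      exact hRB.pow 4
    have hFP := poly_findF hRB.hr hRB.h1
    have hcdS : NPC.Poly (fun x : (List Bool × ℕ) × List Op × List ℕ × ℕ =>
        cdS gg P (WW x.1.1, x.1.2, rf (g x.1.1), x.2.1, x.2.2.1, x.2.2.2)) := by
      unfold cdS
      refine NPC.Poly.filter (p := fun (x : (List Bool × ℕ) × List Op × List ℕ × ℕ) cs =>
        cs.all fun a => decide (a ≤ Ins.p (WW x.1.1, x.1.2, rf (g x.1.1), x.2.1, x.2.2.1,
          x.2.2.2)))
        (NPC.Poly.map (F := fun (x : (List Bool × ℕ) × List Op × List ℕ × ℕ) V =>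
          cf (Ins.m (WW x.1.1, x.1.2, rf (g x.1.1), x.2.1, x.2.2.1, x.2.2.2)) V) ?_ ?_) ?_
      · refine poly_listS hgg (qb := fun (x : (List Bool × ℕ) × List Op × List ℕ × ℕ) j q t i =>
          bits (((WW x.1.1, x.1.2, rf (g x.1.1), x.2.1, x.2.2.1, x.2.2.2), j, q,
            findF (rrP ((PE P).eval (Ins.m (WW x.1.1, x.1.2, rf (g x.1.1), x.2.1, x.2.2.1,
              x.2.2.2)))), t, i) : QryS)) ?_
          hMU hNU (fun x => nnS_pos _) hRB (UPoly.mul hmU hmU) hFP
        refine poly_bits ?_
        have hI' := hI.comp (f := fun x : ((List Bool × ℕ) × List Op × List ℕ × ℕ) ×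
          ℕ × ℕ × ℕ × ℕ => x.1) (NPC.Poly.fst NPC.Poly.id)
        have hF' := hFP.comp (f := fun x : ((List Bool × ℕ) × List Op × List ℕ × ℕ) ×
          ℕ × ℕ × ℕ × ℕ => x.1) (NPC.Poly.fst NPC.Poly.id)
        exact NPC.Poly.pair hI' (NPC.Poly.pair (by fun_prop) (NPC.Poly.pair (by fun_prop)
          (NPC.Poly.pair hF' (by fun_prop))))
      · exact poly_cf ((uPoly_m hI).comp (NPC.Poly.fst NPC.Poly.id)) (NPC.Poly.snd NPC.Poly.id)
      · refine NPC.Poly.all (l := fun x : ((List Bool × ℕ) × List Op × List ℕ × ℕ) × List ℕ => x.2)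
          (p := fun x a => decide (a ≤ Ins.p (WW x.1.1.1, x.1.1.2, rf (g x.1.1.1), x.1.2.1,
            x.1.2.2.1, x.1.2.2.2))) (by fun_prop) ?_
        have h1 := (poly_p hI).comp (f := fun x : (((List Bool × ℕ) × List Op × List ℕ × ℕ) ×
          List ℕ) × ℕ => x.1.1) (NPC.Poly.fst (NPC.Poly.fst NPC.Poly.id))
        exact NPC.Poly.decide_le (NPC.Poly.snd NPC.Poly.id) h1
    have h2 : NPC.Poly (fun z : List Bool × ℕ => z.2) := by fun_prop
    exact poly_runG (p := fun z : List Bool × ℕ => z.2) (D := fun z => (PDQ P).eval (mm z.1))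
      (lv := fun z r => leafN z.2 (rf (g z.1)) r) (cm := fun z _ _ u w => (u + w) % (z.2 + 1))
      (cd := fun z os r i => cdS gg P (WW z.1, z.2, rf (g z.1), os, r, i)) h2
      ((hmmU.comp (NPC.Poly.fst NPC.Poly.id)).eval (PDQ P)) hcdS (by
        have h3 := hrf.comp (f := fun x : (List Bool × ℕ) × List ℕ => x.1.1)
          (NPC.Poly.fst (NPC.Poly.fst NPC.Poly.id))
        exact poly_leafN (p := fun x : (List Bool × ℕ) × List ℕ => x.1.2)
          (F := fun x => rf (g x.1.1)) (r := fun x => x.2) (by fun_prop) h3 (by fun_prop))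
      (fun z r => leafN_le _ _ _) (by fun_prop)
      (fun z o y u w => ((Nat.mod_lt _ (Nat.succ_pos _)).le))
      (os := fun z => ro (g z.1)) (r := fun z => rr z.1)
      (hro.comp (NPC.Poly.fst NPC.Poly.id)) (hrrP.comp (NPC.Poly.fst NPC.Poly.id))
  -- the reconstruction
  have hDU : UPoly (fun x => (PDQ P).eval (mm x)) := hmmU.eval (PDQ P)
  have hMU' : UPoly (fun x => (PMS P).eval (mm x)) := hmmU.eval (PMS P)
  have hprs : NPC.Poly (fun x => prs ((PMS P).eval (mm x)) ((PDQ P).eval (mm x))) := by
    unfold prs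
    refine NPC.Poly.filter (p := fun x q => decide ((PMS P).eval (mm x) < q) &&
      primeN ((PDQ P).eval (mm x)) q) hDU.range ?_
    have h1 : NPC.Poly (fun x : List Bool × ℕ => primeN ((PDQ P).eval (mm x.1)) x.2) :=
      poly_primeN (hDU.comp (NPC.Poly.fst NPC.Poly.id)) (NPC.Poly.snd NPC.Poly.id)
    have h2 : NPC.Poly (fun x : List Bool × ℕ => (PMS P).eval (mm x.1)) :=
      hMU'.toPoly.comp (NPC.Poly.fst NPC.Poly.id)
    fun_prop
  have hfin : NPC.Poly (fun x => crt ((PDQ P).eval (mm x)) (2 ^ (vl (g x)).length + 1)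
      ((prs ((PMS P).eval (mm x)) ((PDQ P).eval (mm x))).map fun q => (q, RR (x, q - 1) % q))) := by
    refine poly_crt hDU ?_ (NPC.Poly.map (F := fun x q => (q, RR (x, q - 1) % q)) hprs ?_) ?_
    · have h1 := poly_pow2 (UPoly.length hvl)
      fun_prop
    · have h1 : NPC.Poly (fun x : List Bool × ℕ => RR (x.1, x.2 - 1)) :=
        hRRP.comp (f := fun x : List Bool × ℕ => (x.1, x.2 - 1)) (by fun_prop)
      fun_prop
    · intro x e he
      obtain ⟨q, hq, rfl⟩ := List.mem_map.1 he
      obtain ⟨h1, h2, h3⟩ := mem_prs.1 hq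
      exact ⟨h3.pos, h1.le⟩
  refine hfin.congr fun x => ?_
  -- correctness
  set m := mm x with hm
  have hsz : sz (rf (g x)) + sz (ro (g x)) + sz (vl (g x)) + 10 + c0 ≤ m := by
    have h1 := hr1 x
    have h2 := sz_listBool_le x
    have h3 := eval_mono r1 h2
    simp only [sz_pair] at h1
    rw [hm, hmm]
    simp only
    omega
  have hn : (vl (g x)).length < sz (vl (g x)) := length_lt_sz _
  have hpow := hc0 m (by omega)
  rw [Polynomial.eval_add] at hpow
  have hPDQ : (PDQ P).eval m = 2 * ((PMS P).eval m + m + 3 + 4) ^ 2 + 1 := by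
    simp [PDQ, PAQ]
  have h2M : 2 * (PE P).eval m ^ 2 < 2 ^ m := by
    have h1 : 2 * (PE P).eval m ^ 2 = (Polynomial.C 2 * PE P ^ 2).eval m := by simp
    omega
  have hdegleaf : ((rf (g x)).map List.length).sum < m := by
    have key : ∀ F : List (List (Bool × ℕ)), (F.map List.length).sum + 1 ≤ sz F := by
      intro F
      induction F with
      | nil => simp
      | cons c F ih =>
        have := length_lt_sz c
        simp only [List.map_cons, List.sum_cons, sz_list_cons]
        omega
    have := key (rf (g x))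
    omega
  refine crt_eq (fun e he => ?_) ?_ (Nat.lt_succ_of_le (satCount_le _)) ?_
  · obtain ⟨q, hq, rfl⟩ := List.mem_map.1 he
    obtain ⟨h1, h2, h3⟩ := mem_prs.1 hq
    refine ⟨h3, h1.le, ?_⟩
    obtain ⟨p, rfl⟩ : ∃ p, q = p + 1 := ⟨q - 1, by have := h3.pos; omega⟩
    have : Fact (p + 1).Prime := ⟨h3⟩
    have hrc := runQ_correct (P := P) (gg := gg) hpred (m := m) (p := p)
      (n := (vl (g x)).length) (D := (PDQ P).eval m) (F := rf (g x)) (os0 := ro (g x))
      (by omega) (by omega) (by omega) h2M (by omega) (by omega) (by omega) (ro_idx _) hdegleaf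
    rw [vS_rf] at hrc
    have h4 := (ZMod.natCast_eq_natCast_iff' _ _ _).1 hrc
    simp only [Nat.add_sub_cancel]
    exact h4.symm
  · rw [List.map_map]
    have e : (Prod.fst ∘ fun q => (q, RR (x, q - 1) % q)) = id := by
      funext q
      rfl
    rw [e, List.map_id]
    exact nodup_prs _ _
  · rw [List.length_map, hPDQ]
    have h1 := length_prs (M := (PMS P).eval m) (m := m)
    calc 2 ^ (vl (g x)).length + 1 ≤ 2 ^ ((vl (g x)).length + 1) := by
          rw [pow_succ]
          have := Nat.one_le_two_pow (n := (vl (g x)).length)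
          omega
      _ ≤ _ := Nat.pow_le_pow_right (by norm_num) (by omega)

theorem fp_of_selective (h : ListSelective LQ) {f : List Bool → ℕ} (hf : SharpP f) :
    FP f := by
  obtain ⟨V, p, hV, hf⟩ := hf
  obtain ⟨G, hG, hGf⟩ := parsimonious hV p
  have h1 : NPC.Poly G := PC.comp hG Cnt.pc_raw
  have h2 := satCount_of_selective h h1
  exact fp_of_poly (h2.congr fun x => by rw [hf x, ← hGf x])

/-- **Theorem.** Every function in `#P` is computable in polynomial time if and only if some
language that is hard for the languages decided with one value of a `#P` function is selective from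
lists. -/
theorem sharpP_selective_iff : (∃ K : Set (List Bool), SharpPHardLang K ∧ ListSelective K) ↔
    ∀ f : List Bool → ℕ, SharpP f → FP f := by
  constructor
  · rintro ⟨K, hK, hp⟩ f hf
    exact fp_of_selective (Pool.Agent.Helper45.LS.ListSelective.of_reduces hp
      (hK LQ inPSharpP_LQ)) hf
  · intro h
    refine ⟨{[true]}, fun L hL => ?_, selective_of_inP ⟨fun x => x,
      polyTime_of_typed NPC.Poly.id, fun x => Iff.rfl⟩⟩
    obtain ⟨V, hV, hVL⟩ := inP_of_fp h hL
    exact ⟨V, hV, fun x => hVL x⟩

end Pool.Agent.Helper70K1.LS
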